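import Mathlib

set_option autoImplicit false

namespace Pool.Agent.Results.MP_51bcab_lc.NotMinimal

/-- The factors of the words of `L`. -/
def Factors {A : Type} (L : Set (FreeMonoid A)) : Set (FreeMonoid A) :=
  {u | ∃ x y : FreeMonoid A, x * u * y ∈ L}

/-- `X` is the minimal generating set of `X*`: the empty word is not in `X` and no product of two
or more elements of `X` is in `X`. -/
def IsMinGen {A : Type} (X : Set (FreeMonoid A)) : Prop :=
  1 ∉ X ∧ ∀ l : List (FreeMonoid A), (∀ y ∈ l, y ∈ X) → 2 ≤ l.length → l.prod ∉ X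

/-- `M` is an `L`-maximal submonoid. -/
def IsMaximalIn {A : Type} (L : Set (FreeMonoid A)) (M : Submonoid (FreeMonoid A)) : Prop :=
  (M : Set (FreeMonoid A)) ⊆ L ∧
    ∀ N : Submonoid (FreeMonoid A), M ≤ N → (N : Set (FreeMonoid A)) ⊆ L → N = M

/-! ### The monoid: letters `x = 0`, `a = 1`, `c = 2`, `b = 3` -/

/-- An injective coding of words by numbers. -/
def e (w : List (Fin 4)) : ℕ := Encodable.encode w

theorem e_inj {u v : List (Fin 4)} (h : e u = e v) : u = v := Encodable.encode_injective h

/-- `a b^{e(w)} w c` followed by `m`. -/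
def gw (w m : List (Fin 4)) : List (Fin 4) :=
  1 :: (List.replicate (e w) 3 ++ (w ++ (2 :: m)))

/-- The least set of words containing `ε` and closed under `m ↦ x m` and
`(w, m) ↦ a b^{e(w)} w c m`. -/
inductive P : List (Fin 4) → Prop
  | nil : P []
  | x {m : List (Fin 4)} : P m → P (0 :: m)
  | g {w m : List (Fin 4)} : P w → P m → P (gw w m)

theorem P.append {u v : List (Fin 4)} (hu : P u) (hv : P v) : P (u ++ v) := by
  induction hu with
  | nil => exact hv
  | x _ ih => exact .x ih
  | @g w m hw _ _ ih =>
    have : gw w m ++ v = gw w (m ++ v) := by simp [gw]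
    rw [this]
    exact .g hw ih

theorem P.head {u : List (Fin 4)} (hu : P u) : u = [] ∨ (∃ t, u = 0 :: t) ∨ (∃ t, u = 1 :: t) := by
  cases hu with
  | nil => exact Or.inl rfl
  | x _ => exact Or.inr (Or.inl ⟨_, rfl⟩)
  | g _ _ => exact Or.inr (Or.inr ⟨_, rfl⟩)

/-- What follows a letter `a`. -/
theorem P.after {z : List (Fin 4)} (hz : P z) : ∀ z1 z2, z = z1 ++ 1 :: z2 →
    ∃ w z3, P w ∧ z2 = List.replicate (e w) 3 ++ (w ++ 2 :: z3) := by
  induction hz with
  | nil =>
    intro z1 z2 h
    simp at h
  | x _ ih =>
    intro z1 z2 h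
    cases z1 with
    | nil => simp at h
    | cons y z1 =>
      simp only [List.cons_append, List.cons.injEq] at h
      exact ih z1 z2 h.2
  | @g w m hw _ ihw ihm =>
    intro z1 z2 h
    cases z1 with
    | nil =>
      simp only [gw, List.nil_append, List.cons.injEq, true_and] at h
      exact ⟨w, m, hw, h.symm⟩
    | cons y z1 =>
      simp only [gw, List.cons_append, List.cons.injEq] at h
      obtain ⟨-, h⟩ := h
      rcases List.append_eq_append_iff.1 h with ⟨f, h1, h2⟩ | ⟨f, h1, h2⟩
      · -- z1 = b^k ++ f, w ++ 2 :: m = f ++ 1 :: z2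
        rcases List.append_eq_append_iff.1 h2 with ⟨f', h3, h4⟩ | ⟨f', h3, h4⟩
        · -- f = w ++ f', 2 :: m = f' ++ 1 :: z2
          cases f' with
          | nil => simp at h4
          | cons y' f' =>
            simp only [List.cons_append, List.cons.injEq] at h4
            exact ihm f' z2 h4.2
        · -- w = f ++ f', 1 :: z2 = f' ++ 2 :: m
          cases f' with
          | nil => simp at h4
          | cons y' f' =>
            simp only [List.cons_append, List.cons.injEq] at h4
            obtain ⟨rfl, h4⟩ := h4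
            obtain ⟨w', z3, hw', h5⟩ := ihw f f' h3
            refine ⟨w', z3 ++ 2 :: m, hw', ?_⟩
            rw [h4, h5]
            simp
      · -- b^k = z1 ++ f, 1 :: z2 = f ++ ...
        cases f with
        | nil =>
          -- 1 :: z2 = w ++ 2 :: m
          simp only [List.nil_append] at h2
          cases hwc : w with
          | nil => rw [hwc] at h2; simp at h2
          | cons y' f' =>
            rw [hwc] at h2
            simp only [List.cons_append, List.cons.injEq] at h2
            obtain ⟨rfl, h4⟩ := h2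
            obtain ⟨w', z3, hw', h5⟩ := ihw [] f' hwc
            refine ⟨w', z3 ++ 2 :: m, hw', ?_⟩
            rw [h4, h5]
            simp
        | cons y' f' =>
          exfalso
          simp only [List.cons_append, List.cons.injEq] at h2
          have : (1 : Fin 4) ∈ List.replicate (e w) 3 := by
            rw [h1, ← h2.1]; simp
          have := List.eq_of_mem_replicate this
          exact absurd this (by decide)

theorem lead : ∀ (j k : ℕ) (y z : List (Fin 4)), (∀ t, y ≠ 3 :: t) → (∀ t, z ≠ 3 :: t) →
    List.replicate j 3 ++ y = List.replicate k 3 ++ z → j = k ∧ y = z := by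
  intro j
  induction j with
  | zero =>
    intro k y z hy _ h
    cases k with
    | zero => exact ⟨rfl, by simpa using h⟩
    | succ k =>
      exfalso
      rw [List.replicate_succ, List.replicate_zero, List.nil_append, List.cons_append] at h
      exact hy _ h
  | succ j ih =>
    intro k y z hy hz h
    cases k with
    | zero =>
      exfalso
      rw [List.replicate_succ, List.replicate_zero, List.nil_append, List.cons_append] at h
      exact hz _ h.symm
    | succ k =>
      rw [List.replicate_succ, List.replicate_succ, List.cons_append, List.cons_append,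
        List.cons.injEq] at h
      obtain ⟨h1, h2⟩ := ih k y z hy hz h.2
      exact ⟨by omega, h2⟩

theorem fork {v s s' z z' : List (Fin 4)} (h : 0 :: s = v ++ 2 :: z)
    (h' : 1 :: s' = v ++ 2 :: z') : False := by
  cases v with
  | nil => simp at h
  | cons y v =>
    simp only [List.cons_append, List.cons.injEq] at h h'
    have := h.1.trans h'.1.symm
    exact absurd this (by decide)

/-- The language `L = F(P)`. -/
def L : Set (FreeMonoid (Fin 4)) := Factors {w | P (FreeMonoid.toList w)}

theorem mem_L {w : FreeMonoid (Fin 4)} (h : w ∈ L) :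
    ∃ s t, P (s ++ (FreeMonoid.toList w ++ t)) := by
  obtain ⟨x, y, h⟩ := h
  refine ⟨FreeMonoid.toList x, FreeMonoid.toList y, ?_⟩
  have h' : P (FreeMonoid.toList (x * w * y)) := h
  rw [FreeMonoid.toList_mul, FreeMonoid.toList_mul, List.append_assoc] at h'
  exact h'

/-- After a nonempty proper prefix of a word `a b^{e(w)} w c` the next letter is forced. -/
theorem forced {w w' : List (Fin 4)} {j : ℕ} (hw : P w)
    (hj : w' = [] ∨ (j = e w ∧ ∃ w'', w = w' ++ w''))
    (h0 : FreeMonoid.ofList (1 :: (List.replicate j 3 ++ w') ++ [0]) ∈ L)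
    (h1 : FreeMonoid.ofList (1 :: (List.replicate j 3 ++ w') ++ [1]) ∈ L) : False := by
  obtain ⟨s, t, h⟩ := mem_L h0
  obtain ⟨s', t', h'⟩ := mem_L h1
  rw [FreeMonoid.toList_ofList] at h h'
  obtain ⟨w1, z1, hw1, e1⟩ := h.after s (List.replicate j 3 ++ (w' ++ 0 :: t)) (by simp)
  obtain ⟨w2, z2, hw2, e2⟩ := h'.after s' (List.replicate j 3 ++ (w' ++ 1 :: t')) (by simp)
  have hhead : ∀ (v : List (Fin 4)), P v → ∀ r t, v ++ 2 :: r ≠ 3 :: t := by
    intro v hv r t h
    rcases hv.head with rfl | ⟨t, rfl⟩ | ⟨t, rfl⟩
    · simp at h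
    · simp at h
    · simp at h
  have hhead' : ∀ (q : Fin 4), q ≠ 3 → ∀ r t, w' ++ q :: r ≠ 3 :: t := by
    intro q hq r t h
    cases w' with
    | nil =>
      simp only [List.nil_append, List.cons.injEq] at h
      exact hq h.1
    | cons y w' =>
      rcases hj with hj | ⟨-, w'', hj⟩
      · simp at hj
      · simp only [List.cons_append, List.cons.injEq] at h
        rw [h.1] at hj
        rcases hw.head with h5 | ⟨t, h5⟩ | ⟨t, h5⟩
        · rw [h5] at hj; simp at hj
        · rw [h5] at hj; simp at hj
        · rw [h5] at hj; simp at hj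
  obtain ⟨a1, b1⟩ := lead _ _ _ _ (hhead' 0 (by decide) t) (hhead w1 hw1 z1) e1
  obtain ⟨a2, b2⟩ := lead _ _ _ _ (hhead' 1 (by decide) t') (hhead w2 hw2 z2) e2
  have h12 : w1 = w2 := e_inj (a1.symm.trans a2)
  subst h12
  rcases hj with rfl | ⟨hj, w'', hj'⟩
  · exact fork b1 b2
  · have h3 : w1 = w := e_inj (a1.symm.trans hj)
    rw [h3, hj', List.append_assoc] at b1 b2
    exact fork (List.append_cancel_left b1) (List.append_cancel_left b2)

/-- The generators `a b^{e(w)} w c`. -/
def Y : Set (FreeMonoid (Fin 4)) :=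
  {y | ∃ w, P w ∧ y = FreeMonoid.ofList (gw w [])}

/-- The monoid `P`. -/
def PM : Submonoid (FreeMonoid (Fin 4)) where
  carrier := {w | P (FreeMonoid.toList w)}
  one_mem' := P.nil
  mul_mem' := by
    intro u v hu hv
    change P (FreeMonoid.toList (u * v))
    rw [FreeMonoid.toList_mul]
    exact P.append hu hv

theorem exists_max : ∃ M : Submonoid (FreeMonoid (Fin 4)), PM ≤ M ∧ IsMaximalIn L M := by
  obtain ⟨N, hMN, hN⟩ := zorn_le_nonempty₀
    {N : Submonoid (FreeMonoid (Fin 4)) | (N : Set (FreeMonoid (Fin 4))) ⊆ L}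
    (by
      intro c hc hchain y hy
      have hdir : DirectedOn (· ≤ ·) c := hchain.directedOn
      refine ⟨sSup c, ?_, fun z hz => le_sSup hz⟩
      intro w hw
      rw [SetLike.mem_coe, Submonoid.mem_sSup_of_directedOn ⟨y, hy⟩ hdir] at hw
      obtain ⟨N1, hN1, m1⟩ := hw
      exact hc hN1 m1)
    PM (by
      intro w hw
      refine ⟨1, 1, ?_⟩
      rw [one_mul, mul_one]
      exact hw)
  exact ⟨N, hMN, hN.prop, fun K hNK hK => le_antisymm (hN.2 hK hNK) hNK⟩

/-- The minimal generators of a submonoid. -/
def gens (M : Submonoid (FreeMonoid (Fin 4))) : Set (FreeMonoid (Fin 4)) :=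
  {w | w ∈ M ∧ w ≠ 1 ∧ ¬ ∃ u ∈ M, ∃ v ∈ M, u ≠ 1 ∧ v ≠ 1 ∧ u * v = w}

theorem closure_gens (M : Submonoid (FreeMonoid (Fin 4))) : Submonoid.closure (gens M) = M := by
  refine le_antisymm (Submonoid.closure_le.2 fun w hw => hw.1) ?_
  have key : ∀ (n : ℕ) (w : FreeMonoid (Fin 4)), w ∈ M → w.length ≤ n →
      w ∈ Submonoid.closure (gens M) := by
    intro n
    induction n with
    | zero =>
      intro w _ hl
      have : w = 1 := FreeMonoid.length_eq_zero.mp (by omega)
      rw [this]
      exact Submonoid.one_mem _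
    | succ n ih =>
      intro w hw hl
      by_cases h1 : w = 1
      · rw [h1]
        exact Submonoid.one_mem _
      · by_cases hg : w ∈ gens M
        · exact Submonoid.subset_closure hg
        · have : ∃ u ∈ M, ∃ v ∈ M, u ≠ 1 ∧ v ≠ 1 ∧ u * v = w := by
            by_contra hcon
            exact hg ⟨hw, h1, hcon⟩
          obtain ⟨u, hu, v, hv, hu1, hv1, huv⟩ := this
          have hlen : u.length + v.length = w.length := by
            rw [← huv, FreeMonoid.length_mul]
          have hu0 : u.length ≠ 0 := fun h => hu1 (FreeMonoid.length_eq_zero.mp h)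
          have hv0 : v.length ≠ 0 := fun h => hv1 (FreeMonoid.length_eq_zero.mp h)
          rw [← huv]
          exact Submonoid.mul_mem _ (ih u hu (by omega)) (ih v hv (by omega))
  intro w hw
  exact key _ w hw le_rfl

theorem prod_ne_one (M : Submonoid (FreeMonoid (Fin 4))) (l : List (FreeMonoid (Fin 4)))
    (hl : ∀ y ∈ l, y ∈ gens M) (hne : l ≠ []) : l.prod ≠ 1 := by
  cases l with
  | nil => exact absurd rfl hne
  | cons y l =>
    intro h
    rw [List.prod_cons] at h
    have h2 : y.length + (l.prod).length = 0 := by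
      rw [← FreeMonoid.length_mul, h]; simp
    exact (hl y (by simp)).2.1 (FreeMonoid.length_eq_zero.mp (by omega))

theorem minGen_gens (M : Submonoid (FreeMonoid (Fin 4))) : IsMinGen (gens M) := by
  refine ⟨fun h => h.2.1 rfl, ?_⟩
  intro l hl hlen h
  cases l with
  | nil => simp at hlen
  | cons y l =>
    have hl' : ∀ z ∈ l, z ∈ gens M := fun z hz => hl z (by simp [hz])
    have hne : l ≠ [] := by
      intro h
      rw [h] at hlen
      simp at hlen
    apply h.2.2
    refine ⟨y, (hl y (by simp)).1, l.prod, ?_, (hl y (by simp)).2.1, prod_ne_one M l hl' hne, ?_⟩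
    · exact Submonoid.list_prod_mem M fun z hz => (hl' z hz).1
    · rw [List.prod_cons]

theorem Y_sub_gens (M : Submonoid (FreeMonoid (Fin 4))) (hM : PM ≤ M)
    (hL : (M : Set (FreeMonoid (Fin 4))) ⊆ L) : Y ⊆ gens M := by
  rintro y ⟨w, hw, rfl⟩
  refine ⟨hM (show P _ from .g hw .nil), ?_, ?_⟩
  · intro h
    have := congrArg FreeMonoid.toList h
    rw [FreeMonoid.toList_ofList] at this
    simp [gw] at this
  · rintro ⟨u, hu, v, hv, hu1, hv1, huv⟩
    have h : FreeMonoid.toList u ++ FreeMonoid.toList v = gw w [] := by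
      rw [← FreeMonoid.toList_mul, huv, FreeMonoid.toList_ofList]
    have hx0 : FreeMonoid.ofList [0] ∈ M := hM (show P _ from .x .nil)
    have hx1 : FreeMonoid.ofList (gw [] []) ∈ M := hM (show P _ from .g .nil .nil)
    have hu0 := hL (M.mul_mem hu hx0)
    have hu1' := hL (M.mul_mem hu hx1)
    -- `u = a q`
    cases hul : FreeMonoid.toList u with
    | nil => exact hu1 (FreeMonoid.toList.injective hul)
    | cons y q =>
      rw [hul] at h
      simp only [gw, List.cons_append, List.cons.injEq] at h
      obtain ⟨rfl, h⟩ := h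
      have hu' : u = FreeMonoid.ofList (1 :: q) := by
        rw [← hul, FreeMonoid.ofList_toList]
      have hvne : FreeMonoid.toList v ≠ [] := fun h => hv1 (FreeMonoid.toList.injective h)
      -- reduce the second membership
      have hmem1 : FreeMonoid.ofList ((1 :: q) ++ [1]) ∈ L := by
        obtain ⟨x, y, h3⟩ := hu1'
        refine ⟨x, FreeMonoid.ofList (List.replicate (e []) 3 ++ [2]) * y, ?_⟩
        have h4 : x * FreeMonoid.ofList ((1 :: q) ++ [1]) *
            (FreeMonoid.ofList (List.replicate (e []) 3 ++ [2]) * y) =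
            x * (u * FreeMonoid.ofList (gw [] [])) * y := by
          apply FreeMonoid.toList.injective
          simp only [FreeMonoid.toList_mul, FreeMonoid.toList_ofList, hu', gw]
          simp
        rw [h4]
        exact h3
      have hmem0 : FreeMonoid.ofList ((1 :: q) ++ [0]) ∈ L := by
        have h4 : FreeMonoid.ofList ((1 :: q) ++ [0]) = u * FreeMonoid.ofList [0] := by
          rw [hu']; rfl
        rw [h4]
        exact hu0
      rcases List.append_eq_append_iff.1 h with ⟨f, h1, h2⟩ | ⟨f, h1, h2⟩
      · -- b^k = q ++ f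
        have hq : q = List.replicate q.length 3 :=
          List.eq_replicate_of_mem fun z hz =>
            List.eq_of_mem_replicate (by rw [h1]; exact List.mem_append_left _ hz)
        rw [hq] at hmem0 hmem1
        exact forced (w' := []) (j := q.length) hw (Or.inl rfl) (by simpa using hmem0)
          (by simpa using hmem1)
      · -- q = b^k ++ f, w ++ [2] = f ++ v
        obtain ⟨v', y', hv'⟩ : ∃ v' y', FreeMonoid.toList v = v' ++ [y'] :=
          ⟨_, _, (List.dropLast_append_getLast hvne).symm⟩
        rw [hv', ← List.append_assoc] at h2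
        have h3 := (List.append_inj' h2 rfl).1
        rw [h1] at hmem0 hmem1
        exact forced (w' := f) (j := e w) hw (Or.inr ⟨rfl, v', h3⟩) (by simpa using hmem0)
          (by simpa using hmem1)

theorem factors_mono {A B : Set (FreeMonoid (Fin 4))} (h : A ⊆ B) : Factors A ⊆ Factors B := by
  rintro u ⟨x, y, hu⟩
  exact ⟨x, y, h hu⟩

theorem factors_idem {A : Set (FreeMonoid (Fin 4))} : Factors (Factors A) ⊆ Factors A := by
  rintro u ⟨x, y, x', y', hu⟩
  exact ⟨x' * x, y * y', by simpa [mul_assoc] using hu⟩

theorem L_sub : L ⊆ Factors (Submonoid.closure Y : Set (FreeMonoid (Fin 4))) := by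
  rintro u ⟨x, y, hu⟩
  have h1 : FreeMonoid.ofList (gw (FreeMonoid.toList (x * u * y)) []) ∈ Submonoid.closure Y :=
    Submonoid.subset_closure ⟨_, hu, rfl⟩
  refine ⟨FreeMonoid.ofList (1 :: List.replicate (e (FreeMonoid.toList (x * u * y))) 3) * x,
    y * FreeMonoid.ofList [2], ?_⟩
  have h2 : FreeMonoid.ofList (1 :: List.replicate (e (FreeMonoid.toList (x * u * y))) 3) * x *
      u * (y * FreeMonoid.ofList [2]) =
      FreeMonoid.ofList (gw (FreeMonoid.toList (x * u * y)) []) := by
    apply FreeMonoid.toList.injective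
    simp only [FreeMonoid.toList_mul, FreeMonoid.toList_ofList, gw]
    simp
  rw [h2]
  exact h1

theorem x_notMem : FreeMonoid.ofList [0] ∉ Submonoid.closure Y := by
  intro h
  have key : ∀ w ∈ Submonoid.closure Y, w = 1 ∨ ∃ t, FreeMonoid.toList w = 1 :: t := by
    intro w hw
    induction hw using Submonoid.closure_induction with
    | mem y hy =>
      obtain ⟨w, _, rfl⟩ := hy
      exact Or.inr ⟨_, rfl⟩
    | one => exact Or.inl rfl
    | mul u v _ _ hu hv =>
      rcases hu with rfl | ⟨t, ht⟩
      · rw [one_mul]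
        exact hv
      · right
        exact ⟨t ++ FreeMonoid.toList v, by rw [FreeMonoid.toList_mul, ht]; rfl⟩
  rcases key _ h with h | ⟨t, h⟩
  · have := congrArg FreeMonoid.toList h
    simp at this
  · simp at h

/-- There are `X` and a proper subset `Y` of `X` such that `X` is the minimal generating set of
`X*`, `X*` is `F(X*)`-maximal and `F(Y*) = F(X*)`. -/
theorem result : ∃ X Y : Set (FreeMonoid (Fin 4)), IsMinGen X ∧
    IsMaximalIn (Factors (Submonoid.closure X : Set (FreeMonoid (Fin 4))))
      (Submonoid.closure X) ∧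
    Y ⊂ X ∧
    Factors (Submonoid.closure Y : Set (FreeMonoid (Fin 4))) =
      Factors (Submonoid.closure X : Set (FreeMonoid (Fin 4))) := by
  obtain ⟨M, hPM, hML, hmax⟩ := exists_max
  have hFM : Factors (M : Set (FreeMonoid (Fin 4))) = L := by
    apply Set.Subset.antisymm
    · exact (factors_mono hML).trans factors_idem
    · exact factors_mono hPM
  have hY : Y ⊆ gens M := Y_sub_gens M hPM hML
  refine ⟨gens M, Y, minGen_gens M, ?_, ?_, ?_⟩
  · rw [closure_gens, hFM]
    exact ⟨hML, hmax⟩
  · refine ⟨hY, fun h => ?_⟩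
    have : M ≤ Submonoid.closure Y := by
      rw [← closure_gens M]
      exact Submonoid.closure_mono h
    exact x_notMem (this (hPM (show P _ from .x .nil)))
  · rw [closure_gens, hFM]
    apply Set.Subset.antisymm
    · rw [← hFM]
      exact factors_mono (Submonoid.closure_le.2 fun y hy => (hY hy).1)
    · exact L_sub

end Pool.Agent.Results.MP_51bcab_lc.NotMinimal
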